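import Pool.Agent.Helper80.HD.GoalsB

/-! Packet ARH of PROJECT HD (MP_6af536_nt, for helper80): archimedean local height of the norm form. -/

set_option autoImplicit false

open MvPolynomial

noncomputable section

namespace Pool.Agent.Helper3.HD

open Pool.Agent.Helper80.HD

theorem totalDegree_linear {R : Type} [CommRing R] {N : ℕ} (y : Fin (N + 1) → R) :
    (∑ j, C (y j) * X j : MvPolynomial (Fin (N + 1)) R).totalDegree ≤ 1 := by
  refine totalDegree_finsetSum_le fun j _ => ?_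
  refine (totalDegree_mul _ _).trans ?_
  rw [totalDegree_C, zero_add]
  rcases subsingleton_or_nontrivial R with h | h
  · rw [Subsingleton.elim (X j : MvPolynomial (Fin (N + 1)) R) 0, totalDegree_zero]
    exact Nat.zero_le _
  · exact (totalDegree_X j).le

theorem arh (hNF : S_NF) (hG : S_GNM) (hGEL : S_GEL) : S_ARH := by
  intro N
  obtain ⟨c, hc0, hc⟩ := hGEL (Fin (N + 1))
  refine ⟨2 * c, by positivity, ?_⟩
  intro L F' _ _ _ _ _ _ x hx
  have h1 := (hNF L F' N x).2.1 ℂ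
  have hlin : ∀ τ : F' →ₐ[L] ℂ, gn absC (∑ j, C (τ (x j)) * X j : MvPolynomial (Fin (N + 1)) ℂ) =
      vn absC (fun j => τ (x j)) := fun τ => (hG.2.2 ℂ N absC (fun j => τ (x j))).2.2.2
  have hne : ∀ τ : F' →ₐ[L] ℂ, (∑ j, C (τ (x j)) * X j : MvPolynomial (Fin (N + 1)) ℂ) ≠ 0 := by
    intro τ h0
    have h2 := hlin τ
    rw [h0, ← C_0, (hG.2.1 ℂ (Fin (N + 1)) absC).2.1 0, map_zero] at h2
    have h3 : (fun j => τ (x j)) ≠ 0 := by
      intro h4
      apply hx
      funext j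
      have h5 := congrFun h4 j
      simpa using h5
    have h4 := (hG.2.2 ℂ N absC (fun j => τ (x j))).2.2.1 h3
    rw [← h2] at h4
    exact lt_irrefl _ h4
  have h2 := hc (F' →ₐ[L] ℂ) (fun τ => ∑ j, C (τ (x j)) * X j) hne
  simp only [hlin] at h2
  rw [h1]
  refine h2.trans ?_
  have h3 : ∑ τ : F' →ₐ[L] ℂ, ((∑ j, C (τ (x j)) * X j : MvPolynomial (Fin (N + 1)) ℂ).totalDegree : ℝ) ≤
      (Module.finrank L F' : ℝ) := by
    have h4 : ∑ τ : F' →ₐ[L] ℂ, ((∑ j, C (τ (x j)) * X j : MvPolynomial (Fin (N + 1)) ℂ).totalDegree : ℝ) ≤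
        ∑ _τ : F' →ₐ[L] ℂ, (1 : ℝ) :=
      Finset.sum_le_sum fun τ _ => by exact_mod_cast totalDegree_linear fun j => τ (x j)
    refine h4.trans (le_of_eq ?_)
    rw [Finset.sum_const, Finset.card_univ, nsmul_eq_mul, mul_one, AlgHom.card]
  have h5 : (1 : ℝ) ≤ (Module.finrank L F' : ℝ) := by
    exact_mod_cast Nat.one_le_iff_ne_zero.2 (Module.finrank_pos (R := L) (M := F')).ne'
  nlinarith

end Pool.Agent.Helper3.HD
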