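import Pool.Agent.Helper80.HD.GoalsA

/-! Packet HOM of PROJECT HD (MP_6af536_nt, for helper80): the resultant form is multihomogeneous. -/

set_option autoImplicit false

open MvPolynomial

noncomputable section

namespace Pool.Agent.Helper3.HD

open Pool.Agent.Helper80.HD

variable {K : Type} [Field K] {r N : ℕ}

/-- multiply the block `i0` by `c` -/
def phi (i0 : Fin r) (c : K) :
    MvPolynomial (Fin r × Fin (N + 1)) K →ₐ[K] MvPolynomial (Fin r × Fin (N + 1)) K :=
  aeval fun q => C (if q.1 = i0 then c else 1) * X q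

theorem phi_monomial (i0 : Fin r) (c a : K) (s : (Fin r × Fin (N + 1)) →₀ ℕ) :
    phi i0 c (monomial s a) = monomial s (a * c ^ (∑ j, s (i0, j))) := by
  rw [phi, aeval_monomial, Finsupp.prod_fintype _ _ (fun _ => pow_zero _)]
  have h1 : ∏ q : Fin r × Fin (N + 1),
      (C (if q.1 = i0 then c else 1) * X q : MvPolynomial (Fin r × Fin (N + 1)) K) ^ s q =
      C (c ^ (∑ j, s (i0, j))) * monomial s 1 := by
    simp only [mul_pow]
    rw [Finset.prod_mul_distrib]
    congr 1
    · rw [Fintype.prod_prod_type, Finset.prod_eq_single i0]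
      · simp only [if_true]
        rw [Finset.prod_pow_eq_pow_sum, ← C_pow]
      · intro i _ hi
        simp [hi]
      · intro h
        exact absurd (Finset.mem_univ _) h
    · rw [monomial_eq, Finsupp.prod_fintype _ _ (fun _ => pow_zero _)]
      simp
  rw [h1, algebraMap_eq, ← mul_assoc, ← C_mul, C_mul_monomial, mul_one]

theorem coeff_phi (i0 : Fin r) (c : K) (P : MvPolynomial (Fin r × Fin (N + 1)) K)
    (t : (Fin r × Fin (N + 1)) →₀ ℕ) :
    coeff t (phi i0 c P) = coeff t P * c ^ (∑ j, t (i0, j)) := by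
  induction P using MvPolynomial.induction_on' with
  | monomial s a =>
    rw [phi_monomial, coeff_monomial, coeff_monomial]
    split_ifs with h
    · rw [h]
    · rw [zero_mul]
  | add p q hp hq =>
    rw [map_add, coeff_add, coeff_add, hp, hq, add_mul]

theorem vanishes_phi [Algebra K ℂ] (i0 : Fin r) (c : K) {Z : Fin r → Fin (N + 1) → ℂ}
    {Q : MvPolynomial (Fin r × Fin (N + 1)) K} (h : Vanishes K Z Q) : Vanishes K Z (phi i0 c Q) := by
  intro u hu
  have h1 := h (fun q => algebraMap K ℂ (if q.1 = i0 then c else 1) * u q) (fun i => by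
    have h2 : ∑ j, algebraMap K ℂ (if i = i0 then c else 1) * (u (i, j) * Z i j) = 0 :=
      (Finset.mul_sum _ _ _).symm.trans (by rw [hu i, mul_zero])
    rw [← h2]
    exact Finset.sum_congr rfl fun j _ => mul_assoc _ _ _)
  rw [← h1, phi, ← AlgHom.comp_apply, comp_aeval]
  congr 2
  funext q
  simp

theorem hom : S_HOM := by
  intro K _ _ _ r N Z P hP hR s hs i0
  have key : ∀ i : Fin r, ∃ a : K, ∀ t ∈ P.support, (2 : K) ^ (∑ j, t (i, j)) = a := by
    intro i
    obtain ⟨R, hRR⟩ := (hR _).2 (vanishes_phi i (2 : K) ((hR P).1 dvd_rfl))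
    have hsupp : (phi i (2 : K) P).support = P.support := by
      ext t
      rw [mem_support_iff, mem_support_iff, coeff_phi]
      simp
    have hne : phi i (2 : K) P ≠ 0 := by
      intro h0
      rw [h0] at hsupp
      exact hP (support_eq_empty.1 (by rw [← hsupp]; simp))
    have hR0 : R ≠ 0 := by
      rintro rfl
      exact hne (by rw [hRR, mul_zero])
    have hdeg : (phi i (2 : K) P).totalDegree = P.totalDegree := by
      unfold MvPolynomial.totalDegree
      rw [hsupp]
    rw [hRR, totalDegree_mul_of_isDomain hP hR0] at hdeg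
    have hR1 := (totalDegree_eq_zero_iff_eq_C (p := R)).1 (by omega)
    refine ⟨coeff 0 R, fun t ht => ?_⟩
    have h2 := coeff_phi i (2 : K) P t
    rw [hRR, hR1, mul_comm, coeff_C_mul] at h2
    rw [mem_support_iff] at ht
    have h3 : coeff t P * (2 : K) ^ (∑ j, t (i, j)) = coeff t P * coeff 0 R := by
      rw [← h2, mul_comm]
    exact mul_left_cancel₀ ht h3
  obtain ⟨a, ha⟩ := key i0
  have heq : ∀ t ∈ P.support, ∑ j, t (i0, j) = ∑ j, s (i0, j) := by
    intro t ht
    have h1 : (2 : K) ^ (∑ j, t (i0, j)) = (2 : K) ^ (∑ j, s (i0, j)) := by rw [ha t ht, ha s hs]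
    have h2 : (2 : ℕ) ^ (∑ j, t (i0, j)) = 2 ^ (∑ j, s (i0, j)) := by exact_mod_cast h1
    exact Nat.pow_right_injective (le_refl 2) h2
  refine le_antisymm ?_ (Finset.sup_le fun t ht => (heq t ht).le)
  exact Finset.le_sup (f := fun t : (Fin r × Fin (N + 1)) →₀ ℕ => ∑ j, t (i0, j)) hs

end Pool.Agent.Helper3.HD
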